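import Pool.Agent.Helper42.RD.Goals2

/-!
# Project RD (MP_fc6b1e_nt), part E: the degrees in the tower (E_TOW)
-/

namespace Pool.Agent.Helper14.RD

open NumberField Polynomial Module IsDedekindDomain TensorProduct Pool.Agent.Helper51.SigLeo
open Pool.Agent.Helper51.RP

section restr

variable (K A B C : Type) [Field K] [Field A] [Field B] [Field C] [Algebra K A] [Algebra K B]
  [Algebra K C] [Algebra A C] [Algebra B C] [IsScalarTower K A C] [IsScalarTower K B C]
  [Normal K B]

/-- The restriction of automorphisms of `C/A` to `B`. -/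
noncomputable def res : (C ≃ₐ[A] C) →* (B ≃ₐ[K] B) :=
  (AlgEquiv.restrictNormalHom (F := K) (K₁ := C) B).comp (AlgEquiv.restrictScalarsHom K)

theorem res_comm (g : C ≃ₐ[A] C) (x : B) :
    algebraMap B C (res K A B C g x) = g (algebraMap B C x) := by
  have h := AlgEquiv.restrictNormal_commutes (g.restrictScalars K) B x
  exact h

theorem res_inj (lin : ∀ g : C ≃ₐ[K] C, (∀ x : A, g (algebraMap A C x) = algebraMap A C x) →
    (∀ x : B, g (algebraMap B C x) = algebraMap B C x) → g = 1) :
    Function.Injective (res K A B C) := by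
  rw [injective_iff_map_eq_one]
  intro g hg
  have h1 : g.restrictScalars K = 1 := by
    apply lin
    · intro x
      exact g.commutes x
    · intro x
      have h := res_comm K A B C g x
      rw [hg] at h
      exact h.symm
  apply AlgEquiv.ext
  intro x
  exact DFunLike.congr_fun h1 x

theorem finrank_dvd [IsGalois A C] [IsGalois K B] [FiniteDimensional A C]
    [FiniteDimensional K B]
    (lin : ∀ g : C ≃ₐ[K] C, (∀ x : A, g (algebraMap A C x) = algebraMap A C x) →
    (∀ x : B, g (algebraMap B C x) = algebraMap B C x) → g = 1) :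
    finrank A C ∣ finrank K B := by
  rw [← IsGalois.card_aut_eq_finrank A C, ← IsGalois.card_aut_eq_finrank K B]
  exact Subgroup.card_dvd_of_injective _ (res_inj K A B C lin)

end restr

theorem finrank_dvd_pred (p : ℕ) [hp : Fact p.Prime] (K B : Type) [Field K] [Field B] [Algebra K B]
    [FiniteDimensional K B] [IsGalois K B] (ε : B) (hε : IsPrimitiveRoot ε p)
    (gen : ∀ σ : B ≃ₐ[K] B, σ ε = ε → σ = 1) : finrank K B ∣ p - 1 := by
  have : NeZero p := ⟨hp.out.ne_zero⟩
  rw [← IsGalois.card_aut_eq_finrank K B]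
  have h : Function.Injective (hε.autToPow K) := by
    rw [injective_iff_map_eq_one]
    intro σ hσ
    apply gen
    rw [← hε.autToPow_spec K σ, hσ, Units.val_one, ZMod.val_one, pow_one]
  have h2 := Subgroup.card_dvd_of_injective _ h
  rwa [Nat.card_eq_fintype_card (α := (ZMod p)ˣ), ZMod.card_units p] at h2

theorem e_tow : Pool.Agent.Helper42.RD.E_TOW := by
  intro p hp K M K₁ M₁ _ _ _ _ _ _ _ _ _ _ _ _ _ _ _ _ _ _ ε hT
  have : NeZero p := ⟨hp.out.ne_zero⟩
  have hG1 : IsGalois M M₁ := IsGalois.tower_top_of_isGalois K M M₁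
  have hG2 : IsGalois K₁ M₁ := IsGalois.tower_top_of_isGalois K K₁ M₁
  have hd1 : finrank M M₁ ∣ finrank K K₁ := finrank_dvd K M K₁ M₁ hT.lin
  have hd2 : finrank K₁ M₁ ∣ finrank K M :=
    finrank_dvd K K₁ M M₁ (fun g h1 h2 => hT.lin g h2 h1)
  have hd3 : finrank K K₁ ∣ p - 1 := finrank_dvd_pred p K K₁ ε hT.prim hT.gen
  have hc1 : (p - 1).Coprime p := by
    have h := hp.out.one_lt
    have h2 : (p - 1).Coprime (p - 1 + 1) := by simp
    rwa [Nat.sub_add_cancel h.le] at h2
  have hc2 : (finrank K₁ M₁).Coprime p := Nat.Coprime.coprime_dvd_left hd2 hT.cop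
  refine ⟨hG1, hG2, Nat.Coprime.coprime_dvd_left (hd1.trans hd3) hc1, hc2, ?_, ?_⟩
  · intro h2
    have h3 := hT.nt
    by_contra h4
    have h5 : finrank K₁ M₁ = 2 := by omega
    rw [h5, h2] at hc2
    norm_num at hc2
  · intro W w hWw hF g hg
    have : W.asIdeal.LiesOver w.asIdeal := ⟨hWw.symm⟩
    have hg' : res K K₁ M M₁ g = 1 := by
      apply hF
      intro y
      have h1 := HeightOneSpectrum.valuation_liesOver (K := M) M₁ w W (res K K₁ M M₁ g y)
      have h2 := HeightOneSpectrum.valuation_liesOver (K := M) M₁ w W y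
      rw [res_comm, hg, ← h2] at h1
      have hne : w.asIdeal.ramificationIdx' W.asIdeal ≠ 0 :=
        Ideal.IsDedekindDomain.ramificationIdx'_ne_zero_of_liesOver W.asIdeal w.ne_bot
      exact (pow_left_inj₀ zero_le zero_le hne).mp h1
    have h1 : res K K₁ M M₁ g = res K K₁ M M₁ 1 := by rw [hg', map_one]
    exact res_inj K K₁ M M₁ (fun g h1 h2 => hT.lin g h2 h1) h1

end Pool.Agent.Helper14.RD
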