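import Pool.Agent.Helper76.RD.Goals3

/-!
# Project RD (MP_fc6b1e_nt), part F: finiteness, with a finite set `R` (D_FIR)
-/

namespace Pool.Agent.Helper14.RD

open NumberField Polynomial Module IsDedekindDomain TensorProduct Pool.Agent.Helper51.SigLeo
open Pool.Agent.Helper51.RP

theorem ordv_div {M : Type} [Field M] [NumberField M] (w : HeightOneSpectrum (𝓞 M)) (x y : Mˣ) :
    ordv w ((x / y : Mˣ) : M) = ordv w (x : M) - ordv w (y : M) := by
  unfold ordv
  rw [Units.val_div_eq_div_val, map_div₀, WithZero.log_div]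
  · ring
  · exact (Valuation.ne_zero_iff _).2 (Units.ne_zero x)
  · exact (Valuation.ne_zero_iff _).2 (Units.ne_zero y)

theorem d_fir (h1 : Pool.Agent.Helper42.RD.D_FIN) : Pool.Agent.Helper76.RD.D_FIR := by
  classical
  intro p hp M _ _ R hR
  have : NeZero p := ⟨hp.out.ne_zero⟩
  have : Fintype R := hR.fintype
  obtain ⟨n, hn⟩ := h1 p M
  refine ⟨n * Fintype.card (R → ZMod p), ?_⟩
  intro F h2 h3
  have key : ∀ a ∈ F.image (fun (x : Mˣ) (w : R) => (ordv (w : HeightOneSpectrum (𝓞 M)) (x : M) : ZMod p)),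
      (F.filter (fun x : Mˣ =>
        (fun (w : R) => (ordv (w : HeightOneSpectrum (𝓞 M)) (x : M) : ZMod p)) = a)).card ≤ n := by
    intro a ha
    obtain ⟨y₀, hy₀, hya⟩ := Finset.mem_image.1 ha
    set F' := F.filter (fun x : Mˣ =>
        (fun (w : R) => (ordv (w : HeightOneSpectrum (𝓞 M)) (x : M) : ZMod p)) = a) with hF'
    have hc : (F'.image (fun x => x / y₀)).card = F'.card := by
      apply Finset.card_image_of_injective
      intro x y hxy
      exact div_left_injective hxy
    rw [← hc]
    apply hn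
    · intro z hz w
      obtain ⟨x, hx, rfl⟩ := Finset.mem_image.1 hz
      obtain ⟨hxF, hxa⟩ := Finset.mem_filter.1 hx
      rw [ordv_div]
      by_cases hw : w ∈ R
      · have e1 := congrFun hxa ⟨w, hw⟩
        have e2 := congrFun hya ⟨w, hw⟩
        rw [← ZMod.intCast_zmod_eq_zero_iff_dvd]
        push_cast
        rw [sub_eq_zero]
        exact e1.trans e2.symm
      · exact dvd_sub (h2 x hxF w hw) (h2 y₀ hy₀ w hw)
    · intro z hz z' hz' hne
      obtain ⟨x, hx, rfl⟩ := Finset.mem_image.1 hz
      obtain ⟨x', hx', rfl⟩ := Finset.mem_image.1 hz'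
      have hxx : x ≠ x' := by
        rintro rfl
        exact hne rfl
      have := h3 x (Finset.mem_filter.1 hx).1 x' (Finset.mem_filter.1 hx').1 hxx
      rwa [div_div_div_cancel_right]
  refine (Finset.card_le_mul_card_image F n key).trans ?_
  exact Nat.mul_le_mul_left n (Finset.card_le_univ _)

end Pool.Agent.Helper14.RD
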